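import Pool.Agent.N254.UD.Per

/-!
Small balls of the measures invariant under multiplication by coprime `p, q`: at EVERY scale
`r = e ^ (-T)` the mass of the ball `B (x, r)` is at most `C (log (1 / r)) ^ (-2)`, up to a small
probability, unless `x` is extremely close to a rational number with a small denominator.
-/

set_option autoImplicit false

open MeasureTheory

namespace Pool.Agent.Results.MP_e27144_an.BallMasses

/-- **The mass of small balls.** Let `p, q ≥ 2` be coprime.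
1. There are `c, K > 0` such that for all `A ≥ 1`, `0 < ε ≤ 1`, all `T ≥ T₀ (A, ε)` and ALL
   probability measures `μ` invariant under `x ↦ p x` and `x ↦ q x`: outside a set of measure at most
   `ε`, either the open ball of centre `x` and radius `e ^ (-T)` has mass at most
   `K A ^ 2 / (ε ^ 3 T ^ 2)`, or `‖d x‖ < e ^ (-A T)` for some `1 ≤ d ≤ e ^ (c ε T / A)`.
2. If `μ` is such a measure and `μ`-almost every point is neither rational nor a Liouville number,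
   then for every `ε > 0` there are `C` and `T₀` such that for ALL `T ≥ T₀` the ball of centre `x`
   and radius `e ^ (-T)` has mass at most `C / T ^ 2` outside a set of measure at most `ε`.
3. There is `K > 0` such that for all `0 < δ, ε ≤ 1`, all large `N` coprime to `p q` and every orbit
   `O` of a point of order `N`, for all but at most `ε |O|` points `y` of `O` the arc of centre `y`
   and radius `N ^ (-δ)` contains at most `K |O| / (ε ^ 3 δ ^ 4 (log N) ^ 2)` points of `O`. -/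
theorem result (p q : ℕ) (hp : 2 ≤ p) (hq : 2 ≤ q) (hpq : Nat.Coprime p q) :
    (∃ c K : ℝ, 0 < c ∧ 0 < K ∧ ∀ A ε : ℝ, 1 ≤ A → 0 < ε → ε ≤ 1 → ∃ T₀ : ℝ, ∀ T : ℝ, T₀ ≤ T →
      ∀ μ : Measure UnitAddCircle, IsProbabilityMeasure μ →
      MeasurePreserving (fun x : UnitAddCircle => p • x) μ μ →
      MeasurePreserving (fun x : UnitAddCircle => q • x) μ μ →
        μ.real {x | ¬ (μ.real (Metric.ball x (Real.exp (-T))) ≤ K * A ^ 2 / (ε ^ 3 * T ^ 2) ∨
          ∃ d : ℕ, 1 ≤ d ∧ (d : ℝ) ≤ Real.exp (c * ε / A * T) ∧ ‖d • x‖ < Real.exp (-(A * T)))} ≤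
          ε) ∧
    (∀ μ : Measure UnitAddCircle, IsProbabilityMeasure μ →
      MeasurePreserving (fun x : UnitAddCircle => p • x) μ μ →
      MeasurePreserving (fun x : UnitAddCircle => q • x) μ μ →
      (∀ᵐ x ∂μ, ∃ n : ℕ, ∀ d : ℕ, 1 ≤ d → 1 / ((d : ℝ) + 1) ^ n ≤ ‖d • x‖) →
      ∀ ε : ℝ, 0 < ε → ∃ C T₀ : ℝ, ∀ T : ℝ, T₀ ≤ T →
        μ.real {x | C / T ^ 2 < μ.real (Metric.ball x (Real.exp (-T)))} ≤ ε) ∧
    (∃ K : ℝ, 0 < K ∧ ∀ δ ε : ℝ, 0 < δ → δ ≤ 1 → 0 < ε → ε ≤ 1 → ∃ N₀ : ℕ, ∀ N : ℕ, N₀ ≤ N →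
      Nat.Coprime N (p * q) → ∀ x : UnitAddCircle, addOrderOf x = N →
      ∀ O : Finset UnitAddCircle, (∀ y, y ∈ O ↔ ∃ i j : ℕ, y = (p ^ i * q ^ j) • x) →
        ({y | y ∈ O ∧ K / (ε ^ 3 * δ ^ 4 * Real.log N ^ 2) * O.card <
          ({z | z ∈ O ∧ dist z y < (N : ℝ) ^ (-δ)}.ncard : ℝ)}.ncard : ℝ) ≤ ε * O.card) := by
  refine ⟨?_, fun μ hμ hμp hμq hD ε hε =>
    Pool.Agent.N254.UD.tight hp hq hpq μ hμ hμp hμq hD hε, Pool.Agent.N254.UD.perB hp hq hpq⟩
  obtain ⟨c, K, hc, -, hK, h⟩ := Pool.Agent.N254.UD.ball hp hq hpq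
  refine ⟨c, K, hc, hK, fun A ε hA hε hε1 => ?_⟩
  obtain ⟨T₀, hT₀⟩ := h A ε hA hε hε1
  refine ⟨T₀, fun T hT μ hμ hμp hμq => ?_⟩
  refine le_trans (measureReal_mono ?_) (hT₀ T hT μ hμ hμp hμq)
  intro x hx
  simp only [Set.mem_ofPred_eq, not_or, not_le, not_exists, not_and, not_lt] at hx
  exact ⟨hx.1, fun d hd1 hd2 => hx.2 d hd1 hd2⟩

end Pool.Agent.Results.MP_e27144_an.BallMasses
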