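import Mathlib
import Pool.Agent.N903.ZE.Meas

set_option autoImplicit false

/-!
# Invariant measures of zero entropy are dissociated

Let `p ≥ 2` and let `μ 1, …, μ k` be Borel probability measures on the circle `R/Z` which are invariant
under `x ↦ p x` and have entropy zero. Let `a 1, …, a k` be nonzero integers. Then the law of
`a 1 x 1 + … + a k x k`, with `x i` independent of law `μ i`, has as much entropy at scale `p ^ (-n)` as
the measures `μ i` together, up to a factor `1 + o(1)`. In particular the entropy of the first `n`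
digits of the `k`-th convolution power of an atomless zero entropy measure is asymptotically `k`
times the entropy of the first `n` digits of the measure.

By the theorem of Rudolph every atomless measure other than Lebesgue measure which is invariant and ergodic
under `x ↦ 2 x` and `x ↦ 3 x` has entropy zero, so the theorem restricts every counterexample to
Furstenberg's conjecture.

Method: the entropy of the first `n` digits of a convolution is bounded from below by a sum over the digits,
read from the last one. Conditionally on the last digits the next digit of a zero entropy measure is nearly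
determined, and two such nearly determined digits add their entropies, up to a product term; the error
terms are summed with the help of the stationarity of the digit process.
-/

namespace Pool.Agent.Results.MP_e27144_an.DissociatedConvolutions

open MeasureTheory Filter Topology

/-- The Shannon entropy of the first `n` digits in base `p` of a point of law `μ`. -/
noncomputable def H (p n : ℕ) (μ : Measure UnitAddCircle) : ℝ :=
  ∑ j ∈ Finset.range (p ^ n), Real.negMulLog (μ.real ((fun t : ℝ => (t : UnitAddCircle)) ''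
    Set.Ico ((j : ℝ) / (p : ℝ) ^ n) (((j : ℝ) + 1) / (p : ℝ) ^ n)))

/-- The law of `∑ i, a i • x i` for independent `x i` of law `μ i`. -/
noncomputable def sumLaw {k : ℕ} (μ : Fin k → Measure UnitAddCircle) (a : Fin k → ℤ) :
    Measure UnitAddCircle :=
  (Measure.pi μ).map fun x => ∑ i, a i • x i

open Pool.Agent.N903.ZE

theorem H_eq {p : ℕ} [NeZero p] (n : ℕ) (μ : Measure UnitAddCircle) : H p n μ = HH p n μ := by
  unfold H HH ent law
  symm
  refine Finset.sum_bij (fun (a : ZMod (p ^ n)) _ => a.val) ?_ ?_ ?_ ?_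
  · intro a _
    exact Finset.mem_range.2 (ZMod.val_lt a)
  · intro a _ b _ h
    exact ZMod.val_injective _ h
  · intro b hb
    exact ⟨(b : ZMod (p ^ n)), Finset.mem_univ _, ZMod.val_natCast_of_lt (Finset.mem_range.1 hb)⟩
  · intro a _
    have h1 : a = ((a.val : ℕ) : ZMod (p ^ n)) := by simp
    have h2 := dg_preimage (p := p) n a.val (ZMod.val_lt a)
    rw [← h1] at h2
    rw [h2]

theorem meas_sum {k : ℕ} (a : Fin k → ℤ) :
    Measurable fun x : Fin k → UnitAddCircle => ∑ i, a i • x i := by
  have h : Continuous fun x : Fin k → UnitAddCircle => ∑ i, a i • x i :=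
    continuous_finsetSum _ fun i _ => (continuous_zsmul (a i)).comp (continuous_apply i)
  exact h.measurable

theorem sumLaw_succ {k : ℕ} (μ : Fin (k + 1) → Measure UnitAddCircle)
    (hμ : ∀ i, IsProbabilityMeasure (μ i)) (a : Fin (k + 1) → ℤ) :
    sumLaw μ a = cvm (dil (a 0) (μ 0)) (sumLaw (fun i => μ i.succ) fun i => a i.succ) := by
  have h1 := measurePreserving_piFinSuccAbove μ 0
  have hm : Measurable fun z : UnitAddCircle × UnitAddCircle => z.1 + z.2 := by fun_prop
  have m1 := meas_zsmul (a 0)
  have m2 := meas_sum (fun i => a (Fin.succ i))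
  have hpi : IsProbabilityMeasure (Measure.pi fun i : Fin k => μ i.succ) := inferInstance
  have h2 : cvm (dil (a 0) (μ 0)) (sumLaw (fun i => μ i.succ) fun i => a i.succ) =
      ((μ 0).prod (Measure.pi fun i : Fin k => μ i.succ)).map
        (fun z => a 0 • z.1 + ∑ i : Fin k, a i.succ • z.2 i) := by
    unfold cvm dil sumLaw
    rw [Measure.map_prod_map _ _ m1 m2, Measure.map_map hm (m1.prodMap m2)]
    rfl
  have h3 : Measure.map (MeasurableEquiv.piFinSuccAbove (fun _ : Fin (k + 1) => UnitAddCircle) 0)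
      (Measure.pi μ) = (μ 0).prod (Measure.pi fun i : Fin k => μ i.succ) := by
    have := h1.map_eq
    simpa using this
  rw [h2, ← h3, Measure.map_map]
  · unfold sumLaw
    congr 1
    funext x
    simp only [Function.comp_apply]
    rw [Fin.sum_univ_succ]
    rfl
  · exact (m1.comp measurable_fst).add (m2.comp measurable_snd)
  · exact MeasurableEquiv.measurable _

theorem main {p : ℕ} [NeZero p] (k : ℕ) : ∀ (μ : Fin k → Measure UnitAddCircle)
    (_ : ∀ i, IsProbabilityMeasure (μ i))
    (_ : ∀ i, MeasurePreserving (fun x : UnitAddCircle => p • x) (μ i) (μ i))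
    (_ : ∀ i, Zero p (μ i)) (a : Fin k → ℤ) (_ : ∀ i, a i ≠ 0),
    IsProbabilityMeasure (sumLaw μ a) ∧
    MeasurePreserving (fun x : UnitAddCircle => p • x) (sumLaw μ a) (sumLaw μ a) ∧
    (∀ ε : ℝ, 0 < ε → ∃ C : ℝ, 0 ≤ C ∧ ∀ n : ℕ,
      (1 - ε) * ∑ i, HH p n (μ i) - C ≤ HH p n (sumLaw μ a)) ∧
    (∃ C : ℝ, 0 ≤ C ∧ ∀ n : ℕ, HH p n (sumLaw μ a) ≤ ∑ i, HH p n (μ i) + C) := by
  induction k with
  | zero =>
    intro μ hμ _ _ a _
    have hprob : IsProbabilityMeasure (sumLaw μ a) :=
      Measure.isProbabilityMeasure_map (meas_sum a).aemeasurable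
    have hd : sumLaw μ a = Measure.dirac 0 := by
      unfold sumLaw
      rw [Measure.pi_of_empty μ 0, Measure.map_dirac' (meas_sum a)]
      simp
    have hz : ∀ n, HH p n (sumLaw μ a) ≤ 0 := by
      intro n
      unfold HH ent
      apply Finset.sum_nonpos
      intro j _
      unfold law
      rw [hd]
      have h1 : (Measure.dirac (0 : UnitAddCircle)).real (dg p n ⁻¹' {j}) = 0 ∨
          (Measure.dirac (0 : UnitAddCircle)).real (dg p n ⁻¹' {j}) = 1 := by
        unfold Measure.real
        rw [Measure.dirac_apply' _ (lev_dg n j)]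
        by_cases h : (0 : UnitAddCircle) ∈ dg p n ⁻¹' {j}
        · right; simp [h]
        · left; simp [h]
      rcases h1 with h | h
      · rw [h]; simp
      · rw [h]; simp
    refine ⟨hprob, ?_, ?_, ?_⟩
    · refine ⟨by fun_prop, ?_⟩
      rw [hd, Measure.map_dirac' (by fun_prop)]
      simp
    · intro ε _
      refine ⟨0, le_rfl, fun n => ?_⟩
      have := HH_nonneg (p := p) n (sumLaw μ a)
      simpa using this
    · refine ⟨0, le_rfl, fun n => ?_⟩
      simpa using hz n
  | succ k ih =>
    intro μ hμ hinv hzero a ha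
    obtain ⟨i1, i2, i3, C3, hC3, i4⟩ := ih (fun i => μ i.succ) (fun i => hμ i.succ)
      (fun i => hinv i.succ) (fun i => hzero i.succ) (fun i => a i.succ) (fun i => ha i.succ)
    have hd1 := dil_prob (a 0) (μ := μ 0)
    have hd2 := dil_invariant (p := p) (a 0) (hinv 0)
    have hd3 := dil_zero (p := p) (ha 0) (hzero 0)
    have hD : 0 ≤ Real.log ((2 * (a 0).natAbs + 1) * (a 0).natAbs) := by
      apply Real.log_nonneg
      have : (1 : ℝ) ≤ (a 0).natAbs := by exact_mod_cast Int.natAbs_pos.2 (ha 0)
      nlinarith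
    rw [sumLaw_succ μ hμ a]
    refine ⟨cvm_prob, cvm_invariant hd2 i2, ?_, ?_⟩
    · intro ε hε
      by_cases hε1 : 1 ≤ ε
      · refine ⟨0, le_rfl, fun n => ?_⟩
        have hc : IsProbabilityMeasure (cvm (dil (a 0) (μ 0))
          (sumLaw (fun i => μ i.succ) fun i => a i.succ)) := cvm_prob
        have h1 := HH_nonneg (p := p) n (cvm (dil (a 0) (μ 0))
          (sumLaw (fun i => μ i.succ) fun i => a i.succ))
        have h2 : 0 ≤ ∑ i, HH p n (μ i) := Finset.sum_nonneg fun i _ => HH_nonneg n (μ i)
        nlinarith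
      push Not at hε1
      obtain ⟨C1, hC1, h1⟩ := i3 (ε / 2) (by linarith)
      obtain ⟨C2, hC2, h2⟩ := cvm_lower hd2 i2 hd3 (ε := ε / 2) (by linarith)
      refine ⟨C1 + C2 + Real.log ((2 * (a 0).natAbs + 1) * (a 0).natAbs), by positivity, fun n => ?_⟩
      have e1 := h1 n
      have e2 := h2 n
      have e3 := (dil_comp (p := p) n (ha 0) (μ 0)).2
      rw [Fin.sum_univ_succ]
      set x := HH p n (μ 0)
      set y := ∑ i : Fin k, HH p n (μ i.succ)
      set z := HH p n (dil (a 0) (μ 0))
      set w := HH p n (sumLaw (fun i => μ i.succ) fun i => a i.succ)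
      have hx : 0 ≤ x := HH_nonneg n (μ 0)
      have hy : 0 ≤ y := Finset.sum_nonneg fun i _ => HH_nonneg n (μ i.succ)
      set D := Real.log ((2 * (a 0).natAbs + 1) * (a 0).natAbs)
      have hε2 : 0 ≤ 1 - ε / 2 := by linarith
      have f1 : (1 - ε / 2) * (x - D) ≤ (1 - ε / 2) * z :=
        mul_le_mul_of_nonneg_left (by linarith) hε2
      have f2 : (1 - ε / 2) * ((1 - ε / 2) * y - C1) ≤ (1 - ε / 2) * w :=
        mul_le_mul_of_nonneg_left e1 hε2
      have f3 : 0 ≤ ε * x := mul_nonneg hε.le hx
      have f4 : 0 ≤ ε * ε * y := mul_nonneg (mul_nonneg hε.le hε.le) hy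
      have f5 : 0 ≤ ε * D := mul_nonneg hε.le hD
      have f6 : 0 ≤ ε * C1 := mul_nonneg hε.le hC1
      nlinarith
    · refine ⟨Real.log ((2 * (a 0).natAbs + 1) * (a 0).natAbs) + C3 + Real.log 2,
        by have := Real.log_nonneg (show (1 : ℝ) ≤ 2 by norm_num); positivity, fun n => ?_⟩
      have e1 := cvm_upper (p := p) n (dil (a 0) (μ 0)) (sumLaw (fun i => μ i.succ) fun i => a i.succ)
      have e2 := (dil_comp (p := p) n (ha 0) (μ 0)).1
      have e3 := i4 n
      rw [Fin.sum_univ_succ]
      linarith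

/-- **Zero entropy measures are dissociated.** Let `p ≥ 2`, let `μ i`, `i < k`, be Borel probability
measures on the circle which are invariant under `x ↦ p x` and have entropy zero (`H p n (μ i) / n → 0`),
and let `a i` be nonzero integers. Let `ν` be the law of `∑ a i • x i` for independent `x i` of law `μ i`.
(1) For every `ε > 0` there is `C` with `H p n ν ≥ (1 - ε) ∑ H p n (μ i) - C` for all `n`.
(2) There is `C` with `H p n ν ≤ ∑ H p n (μ i) + C` for all `n`.
(3) If one of the `μ i` is atomless then `H p n ν / ∑ H p n (μ i) → 1` as `n → ∞`. -/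
theorem result (p : ℕ) (hp : 2 ≤ p) (k : ℕ) (μ : Fin k → Measure UnitAddCircle)
    (hμ : ∀ i, IsProbabilityMeasure (μ i))
    (hinv : ∀ i, MeasurePreserving (fun x : UnitAddCircle => p • x) (μ i) (μ i))
    (hzero : ∀ i, Tendsto (fun n : ℕ => H p n (μ i) / n) atTop (𝓝 0))
    (a : Fin k → ℤ) (ha : ∀ i, a i ≠ 0) :
    (∀ ε : ℝ, 0 < ε → ∃ C : ℝ, ∀ n : ℕ, (1 - ε) * ∑ i, H p n (μ i) - C ≤ H p n (sumLaw μ a)) ∧
    (∃ C : ℝ, ∀ n : ℕ, H p n (sumLaw μ a) ≤ ∑ i, H p n (μ i) + C) ∧
    ((∃ i, ∀ x, μ i {x} = 0) →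
      Tendsto (fun n : ℕ => H p n (sumLaw μ a) / ∑ i, H p n (μ i)) atTop (𝓝 1)) := by
  have hp0 : NeZero p := ⟨by omega⟩
  simp only [H_eq] at hzero ⊢
  obtain ⟨h1, h2, h3, C4, hC4, h4⟩ := main k μ hμ hinv hzero a ha
  refine ⟨fun ε hε => ?_, ⟨C4, h4⟩, ?_⟩
  · obtain ⟨C, _, h⟩ := h3 ε hε
    exact ⟨C, h⟩
  · rintro ⟨i, hi⟩
    have ht : Tendsto (fun n : ℕ => ∑ i, HH p n (μ i)) atTop atTop := by
      refine tendsto_atTop_mono (fun n => ?_) (tendsto_HH (p := p) hi hp)
      exact Finset.single_le_sum (f := fun i => HH p n (μ i)) (fun j _ => HH_nonneg n (μ j))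
        (Finset.mem_univ i)
    rw [Metric.tendsto_atTop]
    intro ε hε
    obtain ⟨C, hC, h⟩ := h3 (ε / 3) (by linarith)
    obtain ⟨N, hN⟩ := eventually_atTop.1 (ht.eventually_ge_atTop (3 * (C + C4 + 1) / ε))
    refine ⟨N, fun n hn => ?_⟩
    have e1 := hN n hn
    have e2 := h n
    have e3 := h4 n
    set S := ∑ i, HH p n (μ i) with hS
    have hS0 : 0 < S := lt_of_lt_of_le (by positivity) e1
    rw [div_le_iff₀ hε] at e1
    rw [Real.dist_eq, abs_lt]
    constructor
    · rw [lt_sub_iff_add_lt, lt_div_iff₀ hS0]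
      nlinarith
    · rw [sub_lt_iff_lt_add, div_lt_iff₀ hS0]
      nlinarith

end Pool.Agent.Results.MP_e27144_an.DissociatedConvolutions
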