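import Pool.Agent.N254.CL.Inv

/-!
Branching at one small scale forces a component of Lebesgue measure, with the sharp proportion,
uniformly over all measures on the circle invariant under multiplication by `p` and `q`, and along
windows for arbitrary measures.
-/

set_option autoImplicit false

open MeasureTheory

namespace Pool.Agent.Results.MP_e27144_an.OneScaleBranching

open Classical in
/-- The window of the numbers `n = p ^ a * q ^ b` with `X ≤ n < Y`. -/
noncomputable def window (p q : ℕ) (X Y : ℝ) : Finset ℕ :=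
  (Finset.range ⌈Y⌉₊).filter fun n => (∃ a b : ℕ, n = p ^ a * q ^ b) ∧ X ≤ n

/-- The sets `B_j` form a measurable partition of the circle into cells in which any two points
have distance at most `l`. -/
structure Cells (l : ℝ) {k : ℕ} (B : Fin k → Set UnitAddCircle) : Prop where
  meas : ∀ j, MeasurableSet (B j)
  disj : ∀ i j, i ≠ j → Disjoint (B i) (B j)
  cover : ⋃ j, B j = Set.univ
  diam : ∀ j, ∀ x ∈ B j, ∀ y ∈ B j, ‖x - y‖ ≤ l

/-- The concentration of `ν` at the scale `τ` in the cells `B_j`: the sum over the cells of the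
largest mass (supremum) of the intersection of the cell with a closed arc of length `τ`. -/
noncomputable def conc (ν : Measure UnitAddCircle) (τ : ℝ) {k : ℕ}
    (B : Fin k → Set UnitAddCircle) : ℝ :=
  ∑ j, ⨆ y : UnitAddCircle, ν.real (B j ∩ Metric.closedBall y (τ / 2))

/-- Ergodicity for the joint action of `×p` and `×q`. -/
def JointlyErgodic (p q : ℕ) (μ : Measure UnitAddCircle) : Prop :=
  ∀ E : Set UnitAddCircle, MeasurableSet E → (fun x : UnitAddCircle => p • x) ⁻¹' E = E →
    (fun x : UnitAddCircle => q • x) ⁻¹' E = E → μ E = 0 ∨ μ E = 1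

lemma le_heavy (ν : Measure UnitAddCircle) [IsProbabilityMeasure ν] (τ : ℝ)
    (B : Set UnitAddCircle) (y : UnitAddCircle) : ν.real (B ∩ Metric.closedBall y (τ / 2)) ≤
      ⨆ y : UnitAddCircle, ν.real (B ∩ Metric.closedBall y (τ / 2)) :=
  le_ciSup (f := fun y : UnitAddCircle => ν.real (B ∩ Metric.closedBall y (τ / 2)))
    ⟨1, by rintro _ ⟨y, rfl⟩; exact measureReal_le_one⟩ y

/-- **Branching at one scale.** Let `p, q ≥ 2` be coprime, `K ≥ 1` and `ε > 0`.
1. There is `τ₀ > 0` such that for ALL probability measures `μ` invariant under `×p` and `×q`, all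
  `0 < τ < τ₀` and all partitions of the circle into cells of diameter at most `K τ`, every closed
  arc of length `2 r` has `μ`-measure at least `2 r (1 - s) - ε`, where `s` is the concentration of
  `μ` at the scale `τ`: the sum over the cells of the largest mass of an arc of length `τ` in the
  cell. (For instance for the uniform measures on all periodic orbits; the proportion `1 - s` is
  optimal, as the mixtures of Lebesgue measure and of the Dirac measure at `0` show for large `K`.)
2. For a jointly ergodic invariant `μ` other than Lebesgue measure the concentration at the scale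
  `τ` tends to `1` for `τ → 0`, uniformly in the partition: at EVERY small scale all but `ε` of the
  mass lies in one arc of length `τ` per cell.
3. For ARBITRARY probability measures `ν` (no invariance): for all large `H` and all small `τ`,
  depending on `K`, `ε` and `H` only, the average over the window `1 / τ ≤ n < H / τ` of the
  `ν`-measures of `{x | n x ∈ arc}` is at least `2 r (1 - s) - ε`. -/
theorem result (p q : ℕ) (hp : 2 ≤ p) (hq : 2 ≤ q) (hpq : Nat.Coprime p q) (K : ℝ) (hK : 1 ≤ K)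
    (ε : ℝ) (hε : 0 < ε) :
    (∃ τ₀ : ℝ, 0 < τ₀ ∧ ∀ μ : Measure UnitAddCircle, IsProbabilityMeasure μ →
      MeasurePreserving (fun x : UnitAddCircle => p • x) μ μ →
      MeasurePreserving (fun x : UnitAddCircle => q • x) μ μ →
      ∀ τ : ℝ, 0 < τ → τ < τ₀ → ∀ (k : ℕ) (B : Fin k → Set UnitAddCircle), Cells (K * τ) B →
        ∀ c : UnitAddCircle, ∀ r : ℝ, 0 ≤ r → r ≤ 1 / 2 →
          2 * r * (1 - conc μ τ B) - ε ≤ μ.real (Metric.closedBall c r)) ∧
    (∀ μ : Measure UnitAddCircle, IsProbabilityMeasure μ →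
      MeasurePreserving (fun x : UnitAddCircle => p • x) μ μ →
      MeasurePreserving (fun x : UnitAddCircle => q • x) μ μ → JointlyErgodic p q μ →
      μ ≠ volume → ∃ τ₀ : ℝ, 0 < τ₀ ∧ ∀ τ : ℝ, 0 < τ → τ < τ₀ →
        ∀ (k : ℕ) (B : Fin k → Set UnitAddCircle), Cells (K * τ) B → 1 - ε ≤ conc μ τ B) ∧
    (∃ H₀ : ℝ, 1 < H₀ ∧ ∀ H : ℝ, H₀ ≤ H → ∃ τ₀ : ℝ, 0 < τ₀ ∧ ∀ τ : ℝ, 0 < τ → τ < τ₀ →
      (window p q (1 / τ) (H / τ)).Nonempty ∧
      ∀ ν : Measure UnitAddCircle, IsProbabilityMeasure ν →
      ∀ (k : ℕ) (B : Fin k → Set UnitAddCircle), Cells (K * τ) B →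
        ∀ c : UnitAddCircle, ∀ r : ℝ, 0 ≤ r → r ≤ 1 / 2 →
          (2 * r * (1 - conc ν τ B) - ε) * (window p q (1 / τ) (H / τ)).card ≤
            ∑ n ∈ window p q (1 / τ) (H / τ), ν.real {x | ‖n • x - c‖ ≤ r}) := by
  refine ⟨?_, ?_, ?_⟩
  · obtain ⟨τ0, hτ0, h⟩ := Pool.Agent.N254.CL.branch_inv hp hq hpq hK hε
    refine ⟨τ0, hτ0, fun μ hμ hip hiq τ hτ hττ k B hB c r hr0 hr => ?_⟩
    exact h μ hμ hip hiq τ hτ hττ k B hB.meas (fun i j hij => hB.disj i j hij) hB.cover hB.diam
      (fun j => ⨆ y : UnitAddCircle, μ.real (B j ∩ Metric.closedBall y (τ / 2)))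
      (fun j y => le_heavy μ τ (B j) y) c r hr0 hr
  · intro μ hμ hip hiq herg hne
    obtain ⟨τ0, hτ0, h⟩ := Pool.Agent.N254.CL.concentrated hp hq hpq μ hip hiq herg hne hK hε
    refine ⟨τ0, hτ0, fun τ hτ hττ k B hB => ?_⟩
    obtain ⟨y, hy⟩ := h τ hτ hττ k B hB.meas (fun i j hij => hB.disj i j hij) hB.cover hB.diam
    exact hy.trans (Finset.sum_le_sum fun j _ => le_heavy μ τ (B j) (y j))
  · obtain ⟨H0, hH0, h⟩ := Pool.Agent.N254.CL.branch hp hq hpq hK hε
    refine ⟨H0, hH0, fun H hH => ?_⟩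
    obtain ⟨τ0, hτ0, h1⟩ := h H hH
    refine ⟨τ0, hτ0, fun τ hτ hττ => ?_⟩
    obtain ⟨h2, h3⟩ := h1 τ hτ hττ
    refine ⟨h2, fun ν hν k B hB c r hr0 hr => ?_⟩
    exact h3 ν hν k B hB.meas (fun i j hij => hB.disj i j hij) hB.cover hB.diam
      (fun j => ⨆ y : UnitAddCircle, ν.real (B j ∩ Metric.closedBall y (τ / 2)))
      (fun j y => le_heavy ν τ (B j) y) c r hr0 hr

end Pool.Agent.Results.MP_e27144_an.OneScaleBranching
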