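import Pool.Agent.N254.SP.Blocks
import Pool.Agent.TH461.FGK.Cov

/-!
# Almost periods along sparse sequences of scales

A measure invariant under multiplication by `p` and `q` which has polynomially good almost periods
along SOME sequence of scales which is not too sparse (a scale in every interval `[N, N ^ C]`) is
purely atomic. Equivalently, for an atomless invariant measure there are arbitrarily long blocks
`[N, N ^ C]` of scales `M` without any integer `1 ≤ n ≤ 2 ^ M` with `1 - Re μ^(n) ≤ M ^ (-s)`.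
-/

set_option autoImplicit false

open MeasureTheory Filter Topology

namespace Pool.Agent.Results.MP_e27144_an.SparseAlmostPeriods

/-- **Sparse almost periods.** Let `p, q ≥ 2` be multiplicatively independent. There is
`0 ≤ κ₀ < 1`, with `κ₀ = 0` if `p, q` are products of powers of two coprime integers (for instance
if `p, q` are coprime), such that every probability measure `μ` on `ℝ/ℤ` invariant under `x ↦ p x`
and `x ↦ q x` is purely atomic (carried by the points of finite order) in each of the cases: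
1. for some `κ > κ₀`, some increasing sequence `N_k` and some `1 ≤ n_k ≤ 2 ^ N_k` the series
   `∑ N_(k + 1) ^ κ (1 - Re μ^(n_k))` converges;
2. for some `C ≥ 1`, `s > C κ₀` and all large `N` there are `N ≤ M ≤ N ^ C` and `1 ≤ n ≤ 2 ^ M` with
   `1 - Re μ^(n) ≤ M ^ (-s)`. -/
theorem result (p q : ℕ) (hp : 2 ≤ p) (hq : 2 ≤ q)
    (hpq : Irrational (Real.log (p : ℝ) / Real.log (q : ℝ))) :
    ∃ κ₀ : ℝ, 0 ≤ κ₀ ∧ κ₀ < 1 ∧
      ((∃ u v a b c d : ℕ, 2 ≤ u ∧ 2 ≤ v ∧ Nat.Coprime u v ∧ p = u ^ a * v ^ b ∧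
        q = u ^ c * v ^ d ∧ a * d ≠ b * c) → κ₀ = 0) ∧
      ∀ μ : Measure UnitAddCircle, IsProbabilityMeasure μ →
        MeasurePreserving (fun x : UnitAddCircle => p • x) μ μ →
        MeasurePreserving (fun x : UnitAddCircle => q • x) μ μ →
        ((∃ κ : ℝ, κ₀ < κ ∧ ∃ N n : ℕ → ℕ, StrictMono N ∧ (∀ k, 1 ≤ n k ∧ n k ≤ 2 ^ N k) ∧
            Summable (fun k : ℕ =>
              (N (k + 1) : ℝ) ^ κ * (1 - (∫ x, fourier (n k : ℤ) x ∂μ).re))) ∨
          ∃ C s : ℝ, 1 ≤ C ∧ C * κ₀ < s ∧ ∀ᶠ N : ℕ in atTop, ∃ M : ℕ, N ≤ M ∧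
            (M : ℝ) ≤ (N : ℝ) ^ C ∧ ∃ n : ℕ, 1 ≤ n ∧ n ≤ 2 ^ M ∧
              1 - (∫ x, fourier (n : ℤ) x ∂μ).re ≤ (M : ℝ) ^ (-s)) →
          μ {x | ∃ n : ℕ, 1 ≤ n ∧ n • x = 0} = 1 := by
  obtain ⟨κ₀, h0, h1, h2, hNC⟩ := Pool.Agent.TH461.FGK.nc hp hq hpq
  refine ⟨κ₀, h0, h1, fun h => h2 h, fun μ hμ hμp hμq => ?_⟩
  rintro (⟨κ, hκ, N, n, hN, hn, hs⟩ | ⟨C, s, hC, hs, H⟩)
  · exact Pool.Agent.N254.SP.sparse hp hq (hNC κ hκ) μ hμp hμq N n hN hn hs
  · exact Pool.Agent.N254.SP.blocks hp hq h0 hNC μ hμp hμq hC hs H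

end Pool.Agent.Results.MP_e27144_an.SparseAlmostPeriods
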